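import Pool.Agent.Helper649.Herman

set_option autoImplicit false

namespace Pool.Agent.Results.MP_68f9d6_an.HermanRing

/-- The quadratic automorphism `(x, y) ↦ (y, x + y ^ 2)` of `ℂ × ℂ`. -/
def henon (p : ℂ × ℂ) : ℂ × ℂ := (p.2, p.1 + p.2 ^ 2)

/-- `henon` has a Herman ring with (irrational) rotation number `θ`. A holomorphic map on the
annulus `{z ∈ ℂ/ℤ : |Im z| < h}` is given as a one-periodic map on the strip `{|Im z| < h}` that is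
complex differentiable there. -/
def HasHermanRing (θ : ℝ) : Prop :=
  Irrational θ ∧ ∃ h : ℝ, 0 < h ∧ ∃ (φ : ℂ → ℂ × ℂ) (n : ℕ), 2 ≤ n ∧
    DifferentiableOn ℂ φ {z : ℂ | |z.im| < h} ∧
    (∀ z : ℂ, |z.im| < h → φ (z + 1) = φ z) ∧
    (∃ z z' : ℂ, |z.im| < h ∧ |z'.im| < h ∧ φ z ≠ φ z') ∧
    ∀ z : ℂ, |z.im| < h → henon^[n] (φ z) = φ (z + θ)

/-- The map `(x, y) ↦ (y, x + y ^ 2)` has a Herman ring. -/
theorem result : ∃ θ : ℝ, HasHermanRing θ := by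
  obtain ⟨θ0, hθ0, h⟩ := Pool.Agent.Helper649.rings
  obtain ⟨θ, h1, h2, h3⟩ := Pool.Agent.Helper649.exists_good θ0 hθ0
  obtain ⟨hirr, ht, hh, φ, p1, p2, p3, p4⟩ := h θ h1 h2 h3
  exact ⟨θ, hirr, ht, hh, φ, 2, le_rfl, p1, fun z _ => p2 z, p3, p4⟩

end Pool.Agent.Results.MP_68f9d6_an.HermanRing
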